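import Pool.Agent.N578.TG.Unif
import Pool.Agent.Results.MP_b01859_ag.FewExceptionalClasses

set_option autoImplicit false

/-!
# Rank two: discriminants near the values of multiplicative functions

By the theorem of Riemann-Roch the Chern classes `c₁`, `c₂` of a complex vector bundle of rank two on `ℙ^n`
satisfy the Riemann-Roch conditions. The starting theorem FewExceptionalClasses bounds the number of the
discriminants `c₁² - 4 c₂` which are not squares. Here we show: for `n ≥ n₀` and for all `m ≤ N` but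
`N / (log N) ^ U` EVERY pair satisfying the Riemann-Roch conditions on `ℙ^n` with a discriminant of absolute
value at most `n ^ A` and close to `G (f m)` is the pair of the Chern classes of `O(a) ⊕ O(b)`; here `f` is
Euler's function or any multiplicative function in the class `LM`, and `N₀` does not depend on `n`.
-/

namespace Pool.Agent.Results.MP_b01859_ag.MultiplicativeValues

open Pool.Agent.R920.CH Pool.Agent.N733.TG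

/-- the pair `(c₁, c₂)` is the pair of the Chern classes of `O(a) ⊕ O(b)` -/
def Split (c₁ c₂ : ℤ) : Prop := ∃ a b : ℤ, c₁ = a + b ∧ c₂ = a * b

/-- the discriminants of the pairs which satisfy the Riemann-Roch conditions and do not split -/
def Exc (n : ℕ) : Set ℤ :=
  {D : ℤ | ∃ c₁ c₂ : ℤ, RiemannRoch n (poly2 c₁ c₂) ∧ ¬ Split c₁ c₂ ∧ c₁ ^ 2 - 4 * c₂ = D}

lemma not_square {c₁ c₂ : ℤ} (h : ¬ Split c₁ c₂) : ¬ IsSquare (c₁ ^ 2 - 4 * c₂) := by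
  rintro ⟨k, hk⟩
  apply h
  have hpar : (2 : ℤ) ∣ c₁ + k := by
    have h1 : (2 : ℤ) ∣ c₁ ^ 2 - k ^ 2 := ⟨2 * c₂, by linarith⟩
    have h2 : c₁ ^ 2 - k ^ 2 = (c₁ + k) * (c₁ - k) := by ring
    rw [h2] at h1
    rcases (Int.prime_two.dvd_mul).1 h1 with h3 | h3
    · exact h3
    · obtain ⟨q, hq⟩ := h3
      exact ⟨q + k, by linarith⟩
  obtain ⟨a, ha⟩ := hpar
  refine ⟨a, c₁ - a, by ring, ?_⟩
  have hk' : k = 2 * a - c₁ := by linarith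
  rw [hk'] at hk
  have : 4 * c₂ = 4 * (a * (c₁ - a)) := by linarith
  linarith

/-- the exceptional discriminants, with the saving `n ^ (2 √e - ε)` turned into a power of the height -/
lemma few (A s : ℝ) (hA : 0 < A) (hs0 : 0 ≤ s) (hs : 1 / 2 - 2 * Real.exp (1 / 2) / A < s) :
    ∃ n₀ : ℕ, ∀ n : ℕ, n₀ ≤ n → ∀ X : ℝ, 1 ≤ X →
      {D : ℤ | (D ∈ Exc n ∧ |(D : ℝ)| ≤ (n : ℝ) ^ A) ∧ |(D : ℝ)| ≤ X}.Finite ∧
      ({D : ℤ | (D ∈ Exc n ∧ |(D : ℝ)| ≤ (n : ℝ) ^ A) ∧ |(D : ℝ)| ≤ X}.ncard : ℝ) ≤ 1 * X ^ s := by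
  obtain ⟨ε, hε⟩ : ∃ ε : ℝ, ε = min 1 (A * (s - (1 / 2 - 2 * Real.exp (1 / 2) / A))) := ⟨_, rfl⟩
  have hε0 : 0 < ε := by
    rw [hε]
    exact lt_min one_pos (mul_pos hA (by linarith))
  have hε1 : ε ≤ 1 := by rw [hε]; exact min_le_left _ _
  have hε2 : 1 / 2 - (2 * Real.exp (1 / 2) - ε) / A ≤ s := by
    have h1 : ε ≤ A * (s - (1 / 2 - 2 * Real.exp (1 / 2) / A)) := by rw [hε]; exact min_le_right _ _
    have h2 : ε / A ≤ s - (1 / 2 - 2 * Real.exp (1 / 2) / A) := by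
      rw [div_le_iff₀ hA]; linarith
    rw [sub_div]
    linarith
  have he1 : 1 ≤ Real.exp (1 / 2) := Real.one_le_exp (by norm_num)
  obtain ⟨c, hc⟩ : ∃ c : ℝ, c = 2 * Real.exp (1 / 2) - ε := ⟨_, rfl⟩
  have hc0 : 0 ≤ c := by rw [hc]; linarith
  rw [← hc] at hε2
  obtain ⟨n₀, hn₀⟩ := FewExceptionalClasses.result A ε hε0
  refine ⟨max n₀ 1, fun n hn X hX => ?_⟩
  have hn1 : (1 : ℝ) ≤ n := by exact_mod_cast (le_max_right n₀ 1).trans hn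
  have hnA : (1 : ℝ) ≤ (n : ℝ) ^ A := Real.one_le_rpow hn1 hA.le
  have hfin : {D : ℤ | (D ∈ Exc n ∧ |(D : ℝ)| ≤ (n : ℝ) ^ A) ∧ |(D : ℝ)| ≤ X}.Finite := by
    apply (Set.finite_Icc (-⌊X⌋) ⌊X⌋).subset
    rintro D ⟨-, hD⟩
    have h1 := abs_le.1 hD
    rw [Set.mem_Icc]
    constructor
    · have : -D ≤ ⌊X⌋ := by
        apply Int.le_floor.2
        push_cast
        linarith
      linarith
    · exact Int.le_floor.2 h1.2
  refine ⟨hfin, ?_⟩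
  obtain ⟨Y, hY⟩ : ∃ Y : ℝ, Y = min X ((n : ℝ) ^ A) := ⟨_, rfl⟩
  have hY1 : 1 ≤ Y := by rw [hY]; exact le_min hX hnA
  have hYX : Y ≤ X := by rw [hY]; exact min_le_left _ _
  have hYn : Y ≤ (n : ℝ) ^ A := by rw [hY]; exact min_le_right _ _
  have h1 := (hn₀ n ((le_max_left _ _).trans hn)).1 Y (by linarith) hYn hfin.toFinset (by
    intro D hD
    rw [Set.Finite.mem_toFinset] at hD
    obtain ⟨⟨⟨c₁, c₂, h1, h2, h3⟩, h4⟩, h5⟩ := hD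
    refine ⟨by rw [hY]; exact le_min h5 h4, ?_, c₁, c₂, h1, h3⟩
    rw [← h3]
    exact not_square h2)
  rw [Set.ncard_eq_toFinset_card _ hfin, one_mul]
  refine h1.trans ?_
  rw [← hc]
  have hnc : Y ^ (c / A) ≤ (n : ℝ) ^ c := by
    calc Y ^ (c / A) ≤ ((n : ℝ) ^ A) ^ (c / A) := Real.rpow_le_rpow (by linarith) hYn (by positivity)
      _ = (n : ℝ) ^ c := by rw [← Real.rpow_mul (by linarith)]; congr 1; field_simp
  have hYc : 0 < Y ^ (c / A) := Real.rpow_pos_of_pos (by linarith) _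
  calc √Y / (n : ℝ) ^ c ≤ √Y / Y ^ (c / A) := div_le_div_of_nonneg_left (Real.sqrt_nonneg _) hYc hnc
    _ = Y ^ (1 / 2 - c / A) := by
      rw [Real.sqrt_eq_rpow, ← Real.rpow_sub (by linarith)]
    _ ≤ Y ^ s := Real.rpow_le_rpow_of_exponent_le hY1 hε2
    _ ≤ X ^ s := Real.rpow_le_rpow (by linarith) hYX hs0

/-- Let `A > 0`, `s ≥ 0` and `s > 1 / 2 - 2 √e / A`. (1) There is `n₀` such that for all functions `f` with `LM f`,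
all expanding `G` of order `d`, all `κ ≥ 0` with `d s + κ < 1` and all `U` there is `N₀` such that for ALL
`n ≥ n₀` and `N ≥ N₀` and all `m ≤ N` but `N / (log N) ^ U`, EVERY pair `(c₁, c₂)` which satisfies the
Riemann-Roch conditions on `ℙ^n`, with `|c₁² - 4 c₂| ≤ n ^ A` and `||c₁² - 4 c₂| - G (f m)| ≤ f(m) ^ κ`, is of the
form `(a + b, a b)`. (2) Euler's function and the sum of divisors satisfy `LM`, and `α v ^ d` (`α > 0`, `d ≥ 1`) is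
expanding of order `d`. -/
theorem result (A s : ℝ) (hA : 0 < A) (hs0 : 0 ≤ s) (hs : 1 / 2 - 2 * Real.exp (1 / 2) / A < s) :
    (∃ n₀ : ℕ, ∀ (f : ℕ → ℕ) (G : ℕ → ℝ) (d κ : ℝ) (U : ℕ), LM f → Expanding G d → 0 ≤ κ → d * s + κ < 1 →
      ∃ N₀ : ℕ, ∀ n N : ℕ, n₀ ≤ n → N₀ ≤ N →
        ({m : ℕ | 1 ≤ m ∧ m ≤ N ∧ ¬ ∀ c₁ c₂ : ℤ, RiemannRoch n (poly2 c₁ c₂) →
          |((c₁ ^ 2 - 4 * c₂ : ℤ) : ℝ)| ≤ (n : ℝ) ^ A →
          |(|((c₁ ^ 2 - 4 * c₂ : ℤ) : ℝ)| - G (f m))| ≤ (f m : ℝ) ^ κ → Split c₁ c₂}.ncard : ℝ) ≤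
            N / Real.log N ^ U) ∧
    LM Nat.totient ∧ LM (fun m => ∑ d ∈ m.divisors, d) ∧
    ∀ α d : ℝ, 0 < α → 1 ≤ d → Expanding (fun v => α * (v : ℝ) ^ d) d := by
  refine ⟨?_, lm_totient, lm_sigma, fun α d hα hd => expanding_pow hα hd⟩
  obtain ⟨n₀, hn₀⟩ := few A s hA hs0 hs
  refine ⟨n₀, fun f G d κ U hf hG hκ h1 => ?_⟩
  obtain ⟨N₀, hN₀⟩ := Pool.Agent.N578.TG.keep_unif (T := ℤ) hf hG hs0 hκ h1 1 U
  refine ⟨N₀, fun n N hn hN => ?_⟩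
  have h2 := hN₀ {D : ℤ | D ∈ Exc n ∧ |(D : ℝ)| ≤ (n : ℝ) ^ A} (fun D => |(D : ℝ)|) (hn₀ n hn) N hN
  refine le_trans ?_ h2
  have hfin : {m : ℕ | 1 ≤ m ∧ m ≤ N ∧ ∃ t ∈ {D : ℤ | D ∈ Exc n ∧ |(D : ℝ)| ≤ (n : ℝ) ^ A},
      |(|(t : ℝ)| - G (f m))| ≤ (f m : ℝ) ^ κ}.Finite := by
    apply (Set.finite_Icc 1 N).subset
    intro m hm
    exact ⟨hm.1, hm.2.1⟩
  have h3 : {m : ℕ | 1 ≤ m ∧ m ≤ N ∧ ¬ ∀ c₁ c₂ : ℤ, RiemannRoch n (poly2 c₁ c₂) →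
          |((c₁ ^ 2 - 4 * c₂ : ℤ) : ℝ)| ≤ (n : ℝ) ^ A →
          |(|((c₁ ^ 2 - 4 * c₂ : ℤ) : ℝ)| - G (f m))| ≤ (f m : ℝ) ^ κ → Split c₁ c₂} ⊆
      {m : ℕ | 1 ≤ m ∧ m ≤ N ∧ ∃ t ∈ {D : ℤ | D ∈ Exc n ∧ |(D : ℝ)| ≤ (n : ℝ) ^ A},
      |(|(t : ℝ)| - G (f m))| ≤ (f m : ℝ) ^ κ} := by
    rintro m ⟨h3, h4, h5⟩
    push Not at h5
    obtain ⟨c₁, c₂, g1, g2, g3, g4⟩ := h5
    exact ⟨h3, h4, c₁ ^ 2 - 4 * c₂, ⟨⟨c₁, c₂, g1, g4, rfl⟩, g2⟩, g3⟩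
  exact_mod_cast Set.ncard_le_ncard h3 hfin

end Pool.Agent.Results.MP_b01859_ag.MultiplicativeValues
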