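import Pool.Agent.N375.AV.F
import Pool.Agent.Results.MP_b01859_ag.MultiplicativeValues

set_option autoImplicit false

/-!
# Rank two: discriminants near the values of additive functions and of their compositions

By the theorem of Riemann-Roch the Chern classes `c₁`, `c₂` of a complex vector bundle of rank two on `ℙ^n`
satisfy the Riemann-Roch conditions. The starting theorem FewExceptionalClasses bounds the number of the
discriminants `c₁² - 4 c₂` which are not squares. Here we show: for `n ≥ n₀` and for all `m ≤ N` but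
`K N exp (- c (log N)^(1/(k+1)))` EVERY pair satisfying the Riemann-Roch conditions on `ℙ^n` with a
discriminant of absolute value at most `n ^ A` and close to `G (F m)` is the pair of the Chern classes of
`O(a) ⊕ O(b)`; here `F = f_1 ∘ ⋯ ∘ f_k` is a composition of functions dominated by the largest prime factor (the
sum of the prime factors, the largest prime factor, Kempner's function, and all additive functions with the natural
growth, injective at the large primes), and `c`, `K` do not depend on `n`.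
-/

namespace Pool.Agent.Results.MP_b01859_ag.AdditiveValues

open Pool.Agent.R920.CH Pool.Agent.N375.AV
open Pool.Agent.N733.TG (Expanding expanding_pow)
open Pool.Agent.Results.MP_b01859_ag.MultiplicativeValues (Split Exc few)

/-- Let `A > 0`, `s ≥ 0` and `s > 1 / 2 - 2 √e / A`. (1) There is `n₀` such that for all lists `f_1, …, f_k` of
functions with `PD`, `F = f_1 ∘ ⋯ ∘ f_k`, all expanding `G` of order `d` and all `κ ≥ 0` with `d s + κ < 1` there are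
`c > 0` and `K` such that for ALL `n ≥ n₀` and `N ≥ 1` and all `m ≤ N` but
`K N exp (- c (log N)^(1/(k+1)))`, EVERY pair `(c₁, c₂)` which satisfies the Riemann-Roch conditions on `ℙ^n`, with
`|c₁² - 4 c₂| ≤ n ^ A` and `||c₁² - 4 c₂| - G (F m)| ≤ F(m) ^ κ`, is of the form `(a + b, a b)`. (2) All additive
functions with `f (q^j) ≤ C q^j`, injective at the large primes, the largest prime factor and Kempner's function
satisfy `PD`, and `α v ^ d` (`α > 0`, `d ≥ 1`) is expanding of order `d`. -/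
theorem result (A s : ℝ) (hA : 0 < A) (hs0 : 0 ≤ s) (hs : 1 / 2 - 2 * Real.exp (1 / 2) / A < s) :
    (∃ n₀ : ℕ, ∀ (fs : List (ℕ → ℕ)) (G : ℕ → ℝ) (d κ : ℝ), (∀ f ∈ fs, PD f) → Expanding G d → 0 ≤ κ →
      d * s + κ < 1 →
      ∃ c K : ℝ, 0 < c ∧ ∀ n N : ℕ, n₀ ≤ n → 1 ≤ N →
        ({m : ℕ | 1 ≤ m ∧ m ≤ N ∧ ¬ ∀ c₁ c₂ : ℤ, RiemannRoch n (poly2 c₁ c₂) →
          |((c₁ ^ 2 - 4 * c₂ : ℤ) : ℝ)| ≤ (n : ℝ) ^ A →
          |(|((c₁ ^ 2 - 4 * c₂ : ℤ) : ℝ)| - G (comp fs m))| ≤ (comp fs m : ℝ) ^ κ → Split c₁ c₂}.ncard : ℝ) ≤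
            K * N * Real.exp (-(c * Real.log N ^ ((1 : ℝ) / (fs.length + 1))))) ∧
    (∀ f : ℕ → ℕ, (∀ a b : ℕ, Nat.Coprime a b → f (a * b) = f a + f b) →
      (∃ C : ℕ, ∀ q j : ℕ, q.Prime → 1 ≤ j → f (q ^ j) ≤ C * q ^ j) →
      (∃ P : ℕ, ∀ p q : ℕ, p.Prime → q.Prime → P ≤ p → P ≤ q → f p = f q → p = q) → PD f) ∧
    PD (fun n => n.primeFactors.sup id) ∧ PD (fun n => sInf {k : ℕ | n ∣ k.factorial}) ∧
    ∀ α d : ℝ, 0 < α → 1 ≤ d → Expanding (fun v => α * (v : ℝ) ^ d) d := by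
  refine ⟨?_, fun f h1 h2 h3 => pd_additive h1 h2 h3, pd_largest, pd_kempner,
    fun α d hα hd => expanding_pow hα hd⟩
  obtain ⟨n₀, hn₀⟩ := few A s hA hs0 hs
  refine ⟨n₀, fun fs G d κ hfs hG hκ h1 => ?_⟩
  obtain ⟨c, K, hc, hK⟩ := windows_unif (T := ℤ) (fun D => |(D : ℝ)|) fs hfs hG hs0 hκ h1 1
  refine ⟨c, K, hc, fun n N hn hN => ?_⟩
  have h2 := hK {D : ℤ | D ∈ Exc n ∧ |(D : ℝ)| ≤ (n : ℝ) ^ A} (hn₀ n hn) N hN
  refine le_trans ?_ h2
  have hfin : {m : ℕ | 1 ≤ m ∧ m ≤ N ∧ ∃ t ∈ {D : ℤ | D ∈ Exc n ∧ |(D : ℝ)| ≤ (n : ℝ) ^ A},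
      |(|(t : ℝ)| - G (comp fs m))| ≤ (comp fs m : ℝ) ^ κ}.Finite := by
    apply (Set.finite_Icc 1 N).subset
    intro m hm
    exact ⟨hm.1, hm.2.1⟩
  have h3 : {m : ℕ | 1 ≤ m ∧ m ≤ N ∧ ¬ ∀ c₁ c₂ : ℤ, RiemannRoch n (poly2 c₁ c₂) →
          |((c₁ ^ 2 - 4 * c₂ : ℤ) : ℝ)| ≤ (n : ℝ) ^ A →
          |(|((c₁ ^ 2 - 4 * c₂ : ℤ) : ℝ)| - G (comp fs m))| ≤ (comp fs m : ℝ) ^ κ → Split c₁ c₂} ⊆
      {m : ℕ | 1 ≤ m ∧ m ≤ N ∧ ∃ t ∈ {D : ℤ | D ∈ Exc n ∧ |(D : ℝ)| ≤ (n : ℝ) ^ A},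
      |(|(t : ℝ)| - G (comp fs m))| ≤ (comp fs m : ℝ) ^ κ} := by
    rintro m ⟨h3, h4, h5⟩
    push Not at h5
    obtain ⟨c₁, c₂, g1, g2, g3, g4⟩ := h5
    exact ⟨h3, h4, c₁ ^ 2 - 4 * c₂, ⟨⟨c₁, c₂, g1, g4, rfl⟩, g2⟩, g3⟩
  exact_mod_cast Set.ncard_le_ncard h3 hfin

end Pool.Agent.Results.MP_b01859_ag.AdditiveValues
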