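import Pool.Agent.N251.LF.Win
import Pool.Agent.Results.MP_b01859_ag.FewExceptionalClasses

set_option autoImplicit false

/-!
# Rank two: discriminants near the values of generic polynomials and generic linear forms

By the theorem of Riemann-Roch the Chern classes `c₁`, `c₂` of a complex vector bundle of rank two on `ℙ^n`
satisfy the Riemann-Roch conditions. Let `v_i`, `i` in a countable set, be vectors in `ℝ^k`, `O(X^(τ + δ))` of them of norm at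
most `X` for every `δ > 0`: for instance `(1, m, …, m^d)` with `τ = 1 / d`, or `(b_1^(m_1), …, b_k^(m_k))`, `b_j > 1`, for all
`m_1, …, m_k`, with `τ = 0`. Let `A > 0`, `s ≥ 0` and `s > 1 / 2 - 2 √e / A` and `θ < 1`. For all `α` in `ℝ^k` outside a set of
Hausdorff dimension at most `k - 1 + (s + τ) / (1 - θ)` and all `c`, for all but finitely many `i`: for ALL `n ≥ n₀(A, s)`,
EVERY pair which satisfies the Riemann-Roch conditions on `ℙ^n` with a discriminant `D = c₁² - 4 c₂`, `|D| ≤ n ^ A` and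
`||D| - α · v_i| ≤ c ‖v_i‖ ^ θ`, is the pair of the Chern classes of `O(a) ⊕ O(b)`. The bound is less than `k` if
`s + τ + θ < 1`. As `s < 1 / 2` is possible for every `A`, this is so if `τ + θ < 1 / 2` for all `A`.

Proof. The starting theorem FewExceptionalClasses bounds the number of the exceptional discriminants for each `n`. As the
Riemann-Roch conditions become stronger with `n`, only the smallest `n` with `n ^ A ≥ |D|` matters, and the exceptional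
discriminants of all `n ≥ n₀` together form a thin set, by a dyadic decomposition. The set of the `α` with an exceptional
discriminant in the window of `v_i` is contained in few slabs, which are covered by small cubes (`Pool.Agent.N251.LF`).
The lemma `few` is from `MultiplicativeValues` (helper578).
-/

namespace Pool.Agent.Results.MP_b01859_ag.GenericLinearForms

open Pool.Agent.R920.CH
open Pool.Agent.N251.LF (Fam Sq linear_windows)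

/-- the pair `(c₁, c₂)` is the pair of the Chern classes of `O(a) ⊕ O(b)` -/
def Split (c₁ c₂ : ℤ) : Prop := ∃ a b : ℤ, c₁ = a + b ∧ c₂ = a * b

/-- the discriminants of the pairs which satisfy the Riemann-Roch conditions and do not split -/
def Exc (n : ℕ) : Set ℤ :=
  {D : ℤ | ∃ c₁ c₂ : ℤ, RiemannRoch n (poly2 c₁ c₂) ∧ ¬ Split c₁ c₂ ∧ c₁ ^ 2 - 4 * c₂ = D}

lemma exc_anti {m n : ℕ} (h : m ≤ n) {D : ℤ} (hD : D ∈ Exc n) : D ∈ Exc m := by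
  obtain ⟨c₁, c₂, h1, h2, h3⟩ := hD
  exact ⟨c₁, c₂, fun f hf hd => h1 f hf (hd.trans h), h2, h3⟩

lemma not_square {c₁ c₂ : ℤ} (h : ¬ Split c₁ c₂) : ¬ IsSquare (c₁ ^ 2 - 4 * c₂) := by
  rintro ⟨k, hk⟩
  apply h
  have hpar : (2 : ℤ) ∣ c₁ + k := by
    have h1 : (2 : ℤ) ∣ c₁ ^ 2 - k ^ 2 := ⟨2 * c₂, by linarith⟩
    have h2 : c₁ ^ 2 - k ^ 2 = (c₁ + k) * (c₁ - k) := by ring
    rw [h2] at h1
    rcases (Int.prime_two.dvd_mul).1 h1 with h3 | h3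
    · exact h3
    · obtain ⟨q, hq⟩ := h3
      exact ⟨q + k, by linarith⟩
  obtain ⟨a, ha⟩ := hpar
  refine ⟨a, c₁ - a, by ring, ?_⟩
  have hk' : k = 2 * a - c₁ := by linarith
  rw [hk'] at hk
  have : 4 * c₂ = 4 * (a * (c₁ - a)) := by linarith
  linarith

/-- the exceptional discriminants, with the saving `n ^ (2 √e - ε)` turned into a power of the height -/
lemma few (A s : ℝ) (hA : 0 < A) (hs0 : 0 ≤ s) (hs : 1 / 2 - 2 * Real.exp (1 / 2) / A < s) :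
    ∃ n₀ : ℕ, ∀ n : ℕ, n₀ ≤ n → ∀ X : ℝ, 1 ≤ X →
      {D : ℤ | (D ∈ Exc n ∧ |(D : ℝ)| ≤ (n : ℝ) ^ A) ∧ |(D : ℝ)| ≤ X}.Finite ∧
      ({D : ℤ | (D ∈ Exc n ∧ |(D : ℝ)| ≤ (n : ℝ) ^ A) ∧ |(D : ℝ)| ≤ X}.ncard : ℝ) ≤ 1 * X ^ s := by
  obtain ⟨ε, hε⟩ : ∃ ε : ℝ, ε = min 1 (A * (s - (1 / 2 - 2 * Real.exp (1 / 2) / A))) := ⟨_, rfl⟩
  have hε0 : 0 < ε := by
    rw [hε]
    exact lt_min one_pos (mul_pos hA (by linarith))
  have hε1 : ε ≤ 1 := by rw [hε]; exact min_le_left _ _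
  have hε2 : 1 / 2 - (2 * Real.exp (1 / 2) - ε) / A ≤ s := by
    have h1 : ε ≤ A * (s - (1 / 2 - 2 * Real.exp (1 / 2) / A)) := by rw [hε]; exact min_le_right _ _
    have h2 : ε / A ≤ s - (1 / 2 - 2 * Real.exp (1 / 2) / A) := by
      rw [div_le_iff₀ hA]; linarith
    rw [sub_div]
    linarith
  have he1 : 1 ≤ Real.exp (1 / 2) := Real.one_le_exp (by norm_num)
  obtain ⟨c, hc⟩ : ∃ c : ℝ, c = 2 * Real.exp (1 / 2) - ε := ⟨_, rfl⟩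
  have hc0 : 0 ≤ c := by rw [hc]; linarith
  rw [← hc] at hε2
  obtain ⟨n₀, hn₀⟩ := FewExceptionalClasses.result A ε hε0
  refine ⟨max n₀ 1, fun n hn X hX => ?_⟩
  have hn1 : (1 : ℝ) ≤ n := by exact_mod_cast (le_max_right n₀ 1).trans hn
  have hnA : (1 : ℝ) ≤ (n : ℝ) ^ A := Real.one_le_rpow hn1 hA.le
  have hfin : {D : ℤ | (D ∈ Exc n ∧ |(D : ℝ)| ≤ (n : ℝ) ^ A) ∧ |(D : ℝ)| ≤ X}.Finite := by
    apply (Set.finite_Icc (-⌊X⌋) ⌊X⌋).subset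
    rintro D ⟨-, hD⟩
    have h1 := abs_le.1 hD
    rw [Set.mem_Icc]
    constructor
    · have : -D ≤ ⌊X⌋ := by
        apply Int.le_floor.2
        push_cast
        linarith
      linarith
    · exact Int.le_floor.2 h1.2
  refine ⟨hfin, ?_⟩
  obtain ⟨Y, hY⟩ : ∃ Y : ℝ, Y = min X ((n : ℝ) ^ A) := ⟨_, rfl⟩
  have hY1 : 1 ≤ Y := by rw [hY]; exact le_min hX hnA
  have hYX : Y ≤ X := by rw [hY]; exact min_le_left _ _
  have hYn : Y ≤ (n : ℝ) ^ A := by rw [hY]; exact min_le_right _ _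
  have h1 := (hn₀ n ((le_max_left _ _).trans hn)).1 Y (by linarith) hYn hfin.toFinset (by
    intro D hD
    rw [Set.Finite.mem_toFinset] at hD
    obtain ⟨⟨⟨c₁, c₂, h1, h2, h3⟩, h4⟩, h5⟩ := hD
    refine ⟨by rw [hY]; exact le_min h5 h4, ?_, c₁, c₂, h1, h3⟩
    rw [← h3]
    exact not_square h2)
  rw [Set.ncard_eq_toFinset_card _ hfin, one_mul]
  refine h1.trans ?_
  rw [← hc]
  have hnc : Y ^ (c / A) ≤ (n : ℝ) ^ c := by
    calc Y ^ (c / A) ≤ ((n : ℝ) ^ A) ^ (c / A) := Real.rpow_le_rpow (by linarith) hYn (by positivity)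
      _ = (n : ℝ) ^ c := by rw [← Real.rpow_mul (by linarith)]; congr 1; field_simp
  have hYc : 0 < Y ^ (c / A) := Real.rpow_pos_of_pos (by linarith) _
  calc √Y / (n : ℝ) ^ c ≤ √Y / Y ^ (c / A) := div_le_div_of_nonneg_left (Real.sqrt_nonneg _) hYc hnc
    _ = Y ^ (1 / 2 - c / A) := by
      rw [Real.sqrt_eq_rpow, ← Real.rpow_sub (by linarith)]
    _ ≤ Y ^ s := Real.rpow_le_rpow_of_exponent_le hY1 hε2
    _ ≤ X ^ s := Real.rpow_le_rpow (by linarith) hYX hs0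

/-- the exceptional discriminants of all `n ≥ n₀` with `n ^ A ≥ |D|` together form a thin set -/
lemma thin (A s : ℝ) (hA : 0 < A) (hs0 : 0 ≤ s) (hs : 1 / 2 - 2 * Real.exp (1 / 2) / A < s) :
    ∃ n₀ : ℕ, ∀ δ : ℝ, 0 < δ → ∃ C : ℝ, ∀ X : ℝ, 1 ≤ X →
      {D : ℤ | (∃ n : ℕ, n₀ ≤ n ∧ D ∈ Exc n ∧ |(D : ℝ)| ≤ (n : ℝ) ^ A) ∧ |(D : ℝ)| ≤ X}.Finite ∧
      (({D : ℤ | (∃ n : ℕ, n₀ ≤ n ∧ D ∈ Exc n ∧ |(D : ℝ)| ≤ (n : ℝ) ^ A) ∧ |(D : ℝ)| ≤ X}.ncard : ℕ) : ℝ) ≤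
        C * X ^ (s + δ) := by
  obtain ⟨A', hAA', hA's⟩ : ∃ A' : ℝ, A < A' ∧ 1 / 2 - 2 * Real.exp (1 / 2) / A' < s := by
    have h1 : ContinuousAt (fun x : ℝ => 1 / 2 - 2 * Real.exp (1 / 2) / x) A :=
      continuousAt_const.sub (continuousAt_const.div continuousAt_id hA.ne')
    have h2 : ∀ᶠ x in nhds A, 1 / 2 - 2 * Real.exp (1 / 2) / x < s := h1.eventually_lt continuousAt_const hs
    obtain ⟨r, hr, h3⟩ := Metric.eventually_nhds_iff.1 h2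
    refine ⟨A + r / 2, by linarith, h3 ?_⟩
    rw [Real.dist_eq, add_sub_cancel_left, abs_of_pos (by linarith)]
    linarith
  have hA'0 : 0 < A' := hA.trans hAA'
  obtain ⟨n₁, hn₁⟩ := few A' s hA'0 hs0 hA's
  have htend : Filter.Tendsto (fun n : ℕ => (n : ℝ) ^ (A' - A)) Filter.atTop Filter.atTop :=
    (tendsto_rpow_atTop (by linarith)).comp tendsto_natCast_atTop_atTop
  obtain ⟨n₂, hn₂⟩ := Filter.eventually_atTop.1 (htend.eventually_ge_atTop 2)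
  set n₀ : ℕ := max (max n₁ n₂) 1 with hn₀
  have hn01 : n₁ ≤ n₀ := (le_max_left _ _).trans (le_max_left _ _)
  have hn02 : n₂ ≤ n₀ := (le_max_right _ _).trans (le_max_left _ _)
  have hn03 : 1 ≤ n₀ := le_max_right _ _
  refine ⟨n₀, fun δ hδ => ⟨(2 * (2 ^ δ / δ) + 1) * 2 ^ s, fun X hX => ?_⟩⟩
  set M : ℕ → ℕ := fun j => max n₀ ⌈((2 : ℝ) ^ j / 2) ^ (1 / A)⌉₊ with hM
  obtain ⟨J', hJ1, hJ2⟩ := exists_nat_pow_near hX (show (1 : ℝ) < 2 by norm_num)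
  set J : ℕ := J' + 1 with hJ
  have hJX : (2 : ℝ) ^ J ≤ 2 * X := by
    rw [hJ, pow_succ]
    linarith
  have hsub : {D : ℤ | (∃ n : ℕ, n₀ ≤ n ∧ D ∈ Exc n ∧ |(D : ℝ)| ≤ (n : ℝ) ^ A) ∧ |(D : ℝ)| ≤ X} ⊆
      ⋃ j ∈ Finset.range (J + 1), {D : ℤ | (D ∈ Exc (M j) ∧ |(D : ℝ)| ≤ ((M j : ℕ) : ℝ) ^ A') ∧ |(D : ℝ)| ≤ (2 : ℝ) ^ j} := by
    rintro D ⟨⟨n, hn, hD, hDn⟩, hDX⟩
    have hn1 : (1 : ℝ) ≤ n := by exact_mod_cast hn03.trans hn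
    obtain ⟨j, hj1, hj2, hj3⟩ : ∃ j : ℕ, j ≤ J ∧ |(D : ℝ)| ≤ (2 : ℝ) ^ j ∧ (2 : ℝ) ^ j / 2 ≤ (n : ℝ) ^ A := by
      rcases lt_or_ge |(D : ℝ)| 1 with h1 | h1
      · refine ⟨0, Nat.zero_le _, by rw [pow_zero]; exact h1.le, ?_⟩
        have h2 : (1 : ℝ) ≤ (n : ℝ) ^ A := Real.one_le_rpow hn1 hA.le
        rw [pow_zero]
        linarith
      · obtain ⟨j, h2, h3⟩ := exists_nat_pow_near h1 (show (1 : ℝ) < 2 by norm_num)
        refine ⟨j + 1, ?_, h3.le, ?_⟩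
        · have h4 : (2 : ℝ) ^ j < 2 ^ (J' + 1) := h2.trans_lt (hDX.trans_lt hJ2)
          have h5 : j < J' + 1 := (pow_lt_pow_iff_right₀ (by norm_num)).1 h4
          omega
        · rw [pow_succ, mul_div_assoc, div_self (by norm_num), mul_one]
          exact h2.trans hDn
    rw [Set.mem_iUnion₂]
    refine ⟨j, Finset.mem_range.2 (by omega), ?_⟩
    have hj0 : (0 : ℝ) < (2 : ℝ) ^ j / 2 := by positivity
    have hMn : M j ≤ n := by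
      refine max_le hn (Nat.ceil_le.2 ?_)
      calc ((2 : ℝ) ^ j / 2) ^ (1 / A) ≤ ((n : ℝ) ^ A) ^ (1 / A) :=
            Real.rpow_le_rpow hj0.le hj3 (by positivity)
        _ = n := by
            rw [← Real.rpow_mul (by linarith), mul_one_div_cancel hA.ne', Real.rpow_one]
    refine ⟨⟨exc_anti hMn hD, ?_⟩, hj2⟩
    have hM0 : n₀ ≤ M j := le_max_left _ _
    have hM1 : (1 : ℝ) ≤ (M j : ℕ) := by exact_mod_cast hn03.trans hM0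
    have h1 : ((2 : ℝ) ^ j / 2) ≤ ((M j : ℕ) : ℝ) ^ A := by
      have h2 : ((2 : ℝ) ^ j / 2) ^ (1 / A) ≤ (M j : ℕ) :=
        (Nat.le_ceil _).trans (Nat.cast_le.2 (le_max_right n₀ ⌈((2 : ℝ) ^ j / 2) ^ (1 / A)⌉₊))
      calc ((2 : ℝ) ^ j / 2) = (((2 : ℝ) ^ j / 2) ^ (1 / A)) ^ A := by
            rw [← Real.rpow_mul hj0.le, one_div_mul_cancel hA.ne', Real.rpow_one]
        _ ≤ ((M j : ℕ) : ℝ) ^ A := Real.rpow_le_rpow (by positivity) h2 hA.le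
    have h2 : (2 : ℝ) ≤ ((M j : ℕ) : ℝ) ^ (A' - A) := hn₂ _ (hn02.trans hM0)
    calc |(D : ℝ)| ≤ (2 : ℝ) ^ j := hj2
      _ = 2 * ((2 : ℝ) ^ j / 2) := by ring
      _ ≤ ((M j : ℕ) : ℝ) ^ (A' - A) * ((M j : ℕ) : ℝ) ^ A := mul_le_mul h2 h1 hj0.le (by positivity)
      _ = ((M j : ℕ) : ℝ) ^ A' := by
          rw [← Real.rpow_add (by linarith)]
          congr 1
          ring
  have hblock : ∀ j : ℕ, {D : ℤ | (D ∈ Exc (M j) ∧ |(D : ℝ)| ≤ ((M j : ℕ) : ℝ) ^ A') ∧ |(D : ℝ)| ≤ (2 : ℝ) ^ j}.Finite ∧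
      (({D : ℤ | (D ∈ Exc (M j) ∧ |(D : ℝ)| ≤ ((M j : ℕ) : ℝ) ^ A') ∧ |(D : ℝ)| ≤ (2 : ℝ) ^ j}.ncard : ℕ) : ℝ) ≤
        1 * ((2 : ℝ) ^ j) ^ s := fun j => hn₁ (M j) (hn01.trans (le_max_left _ _)) _ (one_le_pow₀ (by norm_num))
  have hfin : (⋃ j ∈ Finset.range (J + 1), {D : ℤ | (D ∈ Exc (M j) ∧ |(D : ℝ)| ≤ ((M j : ℕ) : ℝ) ^ A') ∧
      |(D : ℝ)| ≤ (2 : ℝ) ^ j}).Finite := Set.Finite.biUnion (Finset.finite_toSet _) fun j _ => (hblock j).1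
  refine ⟨hfin.subset hsub, ?_⟩
  have hX0 : (0 : ℝ) < X := by linarith
  have h1 : ((J + 1 : ℕ) : ℝ) ≤ (2 * (2 ^ δ / δ) + 1) * X ^ δ := by
    have h2 : (J : ℝ) * Real.log 2 ≤ Real.log (2 * X) := by
      rw [← Real.log_pow]
      exact Real.log_le_log (by positivity) hJX
    have h3 : (1 / 2 : ℝ) ≤ Real.log 2 := by
      have := Real.log_two_gt_d9
      linarith
    have h4 : Real.log (2 * X) ≤ (2 * X) ^ δ / δ := Real.log_le_rpow_div (by linarith) hδ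
    have h5 : (2 * X) ^ δ = 2 ^ δ * X ^ δ := Real.mul_rpow (by norm_num) hX0.le
    have h6 : (J : ℝ) ≤ 2 * Real.log (2 * X) := by
      have h7 : (0 : ℝ) ≤ (J : ℝ) := Nat.cast_nonneg _
      nlinarith
    have h8 : 1 ≤ X ^ δ := Real.one_le_rpow hX hδ.le
    rw [h5] at h4
    push_cast
    calc (J : ℝ) + 1 ≤ 2 * (2 ^ δ * X ^ δ / δ) + X ^ δ := by linarith
      _ = (2 * (2 ^ δ / δ) + 1) * X ^ δ := by ring
  have hncard : {D : ℤ | (∃ n : ℕ, n₀ ≤ n ∧ D ∈ Exc n ∧ |(D : ℝ)| ≤ (n : ℝ) ^ A) ∧ |(D : ℝ)| ≤ X}.ncard ≤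
      ∑ j ∈ Finset.range (J + 1), {D : ℤ | (D ∈ Exc (M j) ∧ |(D : ℝ)| ≤ ((M j : ℕ) : ℝ) ^ A') ∧
        |(D : ℝ)| ≤ (2 : ℝ) ^ j}.ncard :=
    (Set.ncard_le_ncard hsub hfin).trans (Finset.set_ncard_biUnion_le _ _)
  calc (({D : ℤ | (∃ n : ℕ, n₀ ≤ n ∧ D ∈ Exc n ∧ |(D : ℝ)| ≤ (n : ℝ) ^ A) ∧ |(D : ℝ)| ≤ X}.ncard : ℕ) : ℝ)
      ≤ ∑ j ∈ Finset.range (J + 1), (({D : ℤ | (D ∈ Exc (M j) ∧ |(D : ℝ)| ≤ ((M j : ℕ) : ℝ) ^ A') ∧
        |(D : ℝ)| ≤ (2 : ℝ) ^ j}.ncard : ℕ) : ℝ) := by exact_mod_cast hncard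
    _ ≤ ∑ _j ∈ Finset.range (J + 1), (2 * X) ^ s := by
        refine Finset.sum_le_sum fun j hj => (hblock j).2.trans ?_
        rw [one_mul]
        refine Real.rpow_le_rpow (by positivity) (le_trans ?_ hJX) hs0
        exact pow_le_pow_right₀ (by norm_num) (by have := Finset.mem_range.1 hj; omega)
    _ = ((J + 1 : ℕ) : ℝ) * (2 * X) ^ s := by rw [Finset.sum_const, Finset.card_range, nsmul_eq_mul]
    _ ≤ ((2 * (2 ^ δ / δ) + 1) * X ^ δ) * (2 * X) ^ s := mul_le_mul_of_nonneg_right h1 (by positivity)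
    _ = (2 * (2 ^ δ / δ) + 1) * 2 ^ s * X ^ (s + δ) := by
        rw [Real.mul_rpow (by norm_num) hX0.le, Real.rpow_add hX0]
        ring

/-- **Theorem.** Let `A > 0`, `s ≥ 0` and `s > 1 / 2 - 2 √e / A`. (1) There is `n₀` such that for all families `v` of vectors in
`ℝ^k` of exponent `τ ≥ 0` and all `θ < 1`: for all `α` in `ℝ^k` outside a set of Hausdorff dimension at most
`k - 1 + (s + τ) / (1 - θ)` and all `c`, for all but finitely many `i`, for ALL `n ≥ n₀`, EVERY pair `(c₁, c₂)` which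
satisfies the Riemann-Roch conditions on `ℙ^n`, with `|c₁² - 4 c₂| ≤ n ^ A` and `||c₁² - 4 c₂| - ∑ α_j v_(i,j)| ≤ c ‖v_i‖ ^ θ`,
is of the form `(a + b, a b)`. (2) The vectors `(1, n, …, n^d)` are a family of exponent `1 / d`, the
`(b_1^(n_1), …, b_k^(n_k))` with `b_j > 1` one of exponent `0`, the `(n_1^(a_1), …, n_k^(a_k))` with `a_j > 0` one of exponent
`∑ 1 / a_j`, and the `(u_1(n_1), …, u_k(n_k))` one of exponent `∑ τ_j`, if the sequences `u_j` have exponents `τ_j`. -/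
theorem result (A s : ℝ) (hA : 0 < A) (hs0 : 0 ≤ s) (hs : 1 / 2 - 2 * Real.exp (1 / 2) / A < s) :
    (∃ n₀ : ℕ, ∀ (k : ℕ) (ι : Type) (v : ι → Fin k → ℝ) (τ θ : ℝ), Fam v τ → 0 ≤ τ → θ < 1 →
      ∃ E : Set (Fin k → ℝ), dimH E ≤ ENNReal.ofReal ((k : ℝ) - 1 + (s + τ) / (1 - θ)) ∧ ∀ α, α ∉ E → ∀ c : ℝ,
        {i | ¬ ∀ n : ℕ, n₀ ≤ n → ∀ c₁ c₂ : ℤ, RiemannRoch n (poly2 c₁ c₂) →
          |((c₁ ^ 2 - 4 * c₂ : ℤ) : ℝ)| ≤ (n : ℝ) ^ A →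
          |(|((c₁ ^ 2 - 4 * c₂ : ℤ) : ℝ)| - ∑ j, α j * v i j)| ≤ c * ‖v i‖ ^ θ → Split c₁ c₂}.Finite) ∧
    (∀ d : ℕ, 1 ≤ d → Fam (fun (n : ℕ) (j : Fin (d + 1)) => (n : ℝ) ^ (j : ℕ)) (1 / d)) ∧
    (∀ (k : ℕ) (b : Fin k → ℝ), (∀ j, 1 < b j) → Fam (fun (n : Fin k → ℕ) (j : Fin k) => b j ^ n j) 0) ∧
    (∀ (k : ℕ) (a : Fin k → ℝ), (∀ j, 0 < a j) →
      Fam (fun (n : Fin k → ℕ) (j : Fin k) => (n j : ℝ) ^ a j) (∑ j, 1 / a j)) ∧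
    ∀ (k : ℕ) (u : Fin k → ℕ → ℝ) (τ : Fin k → ℝ), (∀ j, Sq (u j) (τ j)) →
      Fam (fun (n : Fin k → ℕ) (j : Fin k) => u j (n j)) (∑ j, τ j) := by
  refine ⟨?_, Pool.Agent.N251.LF.examples⟩
  obtain ⟨n₀, hn₀⟩ := thin A s hA hs0 hs
  refine ⟨n₀, fun k ι v τ θ hv hτ hθ => ?_⟩
  obtain ⟨E, h2, h3⟩ := linear_windows {D : ℤ | ∃ n : ℕ, n₀ ≤ n ∧ D ∈ Exc n ∧ |(D : ℝ)| ≤ (n : ℝ) ^ A}
    (fun D => |(D : ℝ)|) v hs0 hτ hθ hv (fun δ hδ => hn₀ δ hδ)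
  refine ⟨E, h2, fun α hα c => (h3 α hα c).subset ?_⟩
  intro i hi
  simp only [Set.mem_ofPred_eq] at hi ⊢
  push Not at hi
  obtain ⟨n, hn, c₁, c₂, g1, g2, g3, g4⟩ := hi
  exact ⟨c₁ ^ 2 - 4 * c₂, ⟨n, hn, ⟨c₁, c₂, g1, g4, rfl⟩, g2⟩, g3⟩

end Pool.Agent.Results.MP_b01859_ag.GenericLinearForms
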