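import Pool.Agent.N998.CT.NefFin

set_option autoImplicit false

/-!
# Nef vector bundles of rank two with small first Chern class split

Let `E` be a nef (for example, globally generated) vector bundle of rank two on `ℙ^n`, `n ≥ 7`, with
the Chern classes `c₁`, `c₂`, which does not split. We use the following facts.

(1) The Riemann-Roch conditions for `T² - c₁ T + c₂`.

(2) Let `M` be the tautological class on `P = P(E)` (line bundle quotients). It is nef, and the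
intersection number of `M^(j+1)` and `h^(n-j)` on `P` is `h_j`, where `h_0 = 1`, `h_1 = c₁`,
`h_(j+2) = c₁ h_(j+1) - c₂ h_j`. So `h_j ≥ 0` for `j ≤ n`.

(3) Let `4 c₂ ≤ c₁²`. Then `E` is not stable (Barth, Bogomolov). Let `a` be the largest integer such
that `F = E(-a)` has a section `t ≠ 0`, and `b = c₁ - a ≤ a`. The scheme of zeros `Z` of `t` has
codimension two; it is not empty, since `E` does not split; and `deg Z = c₂(F) = c₂ - a b > 0`,
`c₁(F) = b - a ≤ 0`. On a general line `L` the section `t` has no zeros, so `O_L(b)` is a quotient of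
`E|L`, and `b ≥ 0`. Since `t` defines an effective divisor of the class `M - a h` on `P`, its
intersection number with `M^j`, `h^(n-j)` is not negative: `h_j ≥ a h_(j-1)` for `1 ≤ j ≤ n`.

(4) In the case (3), `deg Z ≥ n² / 4` (integral part). Proof: let `Z_m` be the set of the points where
`t` vanishes to the order `m` at least. At the points of `Z_m` the leading terms of `t` define a map
`φ` from the dual of `F` to `Sym^m Ω ⊂ Sym^m (O(-1)^(n+1)) = O(-m)^M`, where `Ω` are the differentials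
of `ℙ^n`. Let `S` be a component of `Z_m` of positive dimension. The map `φ` has rank at most one on
`S`, since a map from `det F* = O(a - b)` to a sum of line bundles `O(-2m)` is zero on `S`. Let
`dim S ≥ 2`. Then `Z_(m+1) ∩ S`, the set of zeros of `φ` on `S`, is of codimension at most two in `S`
and not empty: otherwise there is a surface `S' ⊂ S`, an intersection with general hyperplanes, where
`φ` has rank one everywhere. So (on a resolution of `S'`) the image of `φ` is a line subbundle `L` of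
`O(-m)^M`, the dual of `L` is `O(m) ⊗ Q` with `Q` globally generated, the kernel of `φ` has the class
`(a - b) h - L`, and `c₂(F) h² = L ((a - b) h - L) = - (m h + Q) ((a - b + m) h + Q) ≤ 0`, which is
false. Hence `dim Z_m ≥ n - 2 m` for `2 m ≤ n`. For `m = n / 2` there is a point `p` where `t` vanishes
to the order `m`, and for odd `n` and `m = (n - 1) / 2` a point where `φ` has rank at most one, that
is, `t = (f, f')` with `f` and `f'` of the orders `m` and `m + 1` at least. A general plane through `p`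
meets `Z` in a finite scheme, of degree `deg Z`, and the local intersection number at `p` is at least
`m²`, and at least `m (m + 1)` for odd `n`.

We show

* `c₁ ≥ 3 n` for all `n ≥ 7`;
* `c₁ > 2 n (n - 3)^(1/2)` and `c₁ > n² / 12` for all `n ≥ 12`;
* `c₁ ≥ 2 n [n² / 4]^(1/2)`, which is at least `n (n² - 1)^(1/2)`, and `c₂ ≥ n² [n² / 4]` for all
  sufficiently large `n`; and if `c₁² < 4 c₂` (for example, if `E` is stable)
  `c₁ ≥ n ^ (2 √e + 1 - ε)`, `2 √e + 1 = 4.29…`.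

So all nef bundles of rank two on `ℙ^n` with smaller `c₁` split. (Known for `c₁ ≤ n`, where `E` is a
Fano bundle: Ancona, Peternell and Wiśniewski. For globally generated bundles of rank two the bound
`c₂ ≥ (n - 1) (n + 5)` of Holme and Schneider gives about `c₁ > 2 n`.)

Proof. Let `D = c₁² - 4 c₂ ≥ 0`, `z = c₂ - a b`, and `x`, `y` the roots of `T² - c₁ T + c₂`. We have
`h_(j+1) = y^(j+1) + x h_j = x^(j+1) + y h_j`, so that (3) gives `(a - x) h_j ≤ y^(j+1)`,
`(a - y) h_j ≤ x^(j+1)`; the product of these inequalities is `z h_j² ≤ (x y)^(j+1)`; since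
`h_j ≥ (j + 1) (x y)^(j/2)`, we get `z n² ≤ x y = c₂ ≤ c₁² / 4` for `j = n - 1`. Let `D < 0`. The roots
are `ρ e^(± i θ)`, and `h_j = ρ^j sin ((j + 1) θ) / sin θ`; so (2) gives `θ ≤ π / (n + 1)`, and `|D|` is
smaller than `49 c₁² / (4 (n + 1)²)`. By (1), `|D|` is larger than about `49 n` and `n² / 9` (by a
computation of the divisibility conditions and by the size of a product); for large `n`,
`|D| ≥ n ^ (4 √e - ε)`, by the bound of Burgess and the method of Vinogradov (`BurgessDiscriminant` of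
the starting files). For `n ≤ 11` the finitely many pairs with `c₁ < 3 n` are excluded by (1) and (2).
-/

open Filter Polynomial

namespace Pool.Agent.Results.MP_b01859_ag.NefBundles

open Pool.Agent.R920.CH Pool.Agent.R852.BC Pool.Agent.N998.CT

/-- The numbers `h_0 = 1`, `h_1 = c₁`, `h_(j+2) = c₁ h_(j+1) - c₂ h_j`: the coefficients of
`1 / (1 - c₁ T + c₂ T²)`. -/
def segre (c₁ c₂ : ℤ) : ℕ → ℤ
  | 0 => 1
  | 1 => c₁
  | j + 2 => c₁ * segre c₁ c₂ (j + 1) - c₂ * segre c₁ c₂ j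

/-- The conditions (1) to (4) on the Chern classes `c₁` and `c₂` of a nef vector bundle of rank two on
`ℙ^n` which does not split. -/
structure Conditions (n : ℕ) (c₁ c₂ : ℤ) : Prop where
  riemannRoch : RiemannRoch n (X ^ 2 - C c₁ * X + C c₂)
  positive : ∀ j : ℕ, j ≤ n → 0 ≤ segre c₁ c₂ j
  unstable : 4 * c₂ ≤ c₁ ^ 2 → ∃ a b : ℤ, a + b = c₁ ∧ 0 ≤ b ∧ b ≤ a ∧
    (n : ℤ) ^ 2 / 4 ≤ c₂ - a * b ∧
    ∀ j : ℕ, j < n → a * segre c₁ c₂ j ≤ segre c₁ c₂ (j + 1)

lemma segre_eq (c₁ c₂ : ℤ) : ∀ j : ℕ, segre c₁ c₂ j = seg c₁ c₂ j := by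
  intro j
  induction j using Nat.twoStepInduction with
  | zero => rfl
  | one => rfl
  | more n ih1 ih2 => rw [segre, seg, ih1, ih2]

lemma unst (n : ℕ) (hn : 2 ≤ n) (c₁ c₂ : ℤ) (hc : Conditions n c₁ c₂) (hD : 4 * c₂ ≤ c₁ ^ 2) :
    0 ≤ c₁ ∧ (n : ℤ) ^ 2 * ((n : ℤ) ^ 2 / 4) ≤ c₂ ∧
      (n : ℤ) ^ 2 * ((n : ℤ) ^ 2 - 3) ≤ c₁ ^ 2 := by
  obtain ⟨a, b, hab, hb, hba, hz, h⟩ := hc.unstable hD
  have h1 := nef_unstable n hn c₁ c₂ a b hab hb hba hz hD fun j hj => by
    rw [← segre_eq, ← segre_eq]; exact h j hj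
  refine ⟨by omega, h1, ?_⟩
  have h2 : (n : ℤ) ^ 2 - 3 ≤ 4 * ((n : ℤ) ^ 2 / 4) := by omega
  have h3 : (n : ℤ) ^ 2 * ((n : ℤ) ^ 2 - 3) ≤ (n : ℤ) ^ 2 * (4 * ((n : ℤ) ^ 2 / 4)) :=
    mul_le_mul_of_nonneg_left h2 (by positivity)
  linarith

/-- **Nef bundles of rank two.** -/
theorem result :
    (∀ n : ℕ, 7 ≤ n → ∀ c₁ c₂ : ℤ, Conditions n c₁ c₂ → 3 * (n : ℤ) ≤ c₁) ∧
    (∀ n : ℕ, 12 ≤ n → ∀ c₁ c₂ : ℤ, Conditions n c₁ c₂ →
      4 * ((n : ℤ) ^ 2 * (n - 3)) < c₁ ^ 2 ∧ (n : ℤ) ^ 2 < 12 * c₁) ∧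
    ∀ ε : ℝ, 0 < ε → ∃ n₀ : ℕ, ∀ n : ℕ, n₀ ≤ n → ∀ c₁ c₂ : ℤ, Conditions n c₁ c₂ →
      4 * ((n : ℤ) ^ 2 * ((n : ℤ) ^ 2 / 4)) ≤ c₁ ^ 2 ∧ (n : ℤ) ^ 2 * ((n : ℤ) ^ 2 / 4) ≤ c₂ ∧
      (c₁ ^ 2 < 4 * c₂ → (n : ℝ) ^ (2 * Real.exp (1 / 2) + 1 - ε) ≤ c₁) := by
  refine ⟨?_, ?_, ?_⟩
  · intro n hn c₁ c₂ hc
    have hRR : RiemannRoch n (poly2 c₁ c₂) := hc.riemannRoch
    rcases lt_or_ge (c₁ ^ 2) (4 * c₂) with hD | hD
    · exact nef_three n hn c₁ c₂ hRR (fun j hj => by rw [← segre_eq]; exact hc.positive j hj) hD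
    · obtain ⟨h0, -, h1⟩ := unst n (by omega) c₁ c₂ hc hD
      have hn7 : (7 : ℤ) ≤ n := by exact_mod_cast hn
      by_contra hcon
      push Not at hcon
      have h2 : c₁ ^ 2 ≤ (3 * (n : ℤ)) ^ 2 := pow_le_pow_left₀ h0 hcon.le 2
      have h3 : (10 : ℤ) ≤ (n : ℤ) ^ 2 - 3 := by nlinarith
      have h4 : (n : ℤ) ^ 2 * 10 ≤ (n : ℤ) ^ 2 * ((n : ℤ) ^ 2 - 3) :=
        mul_le_mul_of_nonneg_left h3 (by positivity)
      have h5 : 0 < (n : ℤ) ^ 2 := by positivity
      linarith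
  · intro n hn c₁ c₂ hc
    have hRR : RiemannRoch n (poly2 c₁ c₂) := hc.riemannRoch
    rcases lt_or_ge (c₁ ^ 2) (4 * c₂) with hD | hD
    · obtain ⟨-, h1, h2⟩ := nef_neg n hn c₁ c₂ hRR
        (fun j hj => by rw [← segre_eq]; exact hc.positive j hj) hD
      exact ⟨h1, h2⟩
    · obtain ⟨h0, -, h1⟩ := unst n (by omega) c₁ c₂ hc hD
      have hn12 : (12 : ℤ) ≤ n := by exact_mod_cast hn
      set N : ℤ := (n : ℤ) with hN
      have h4 : 4 * (N - 3) < N ^ 2 - 3 := by nlinarith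
      have h5 : N ^ 2 * (4 * (N - 3)) < N ^ 2 * (N ^ 2 - 3) :=
        mul_lt_mul_of_pos_left h4 (by positivity)
      refine ⟨by linarith, ?_⟩
      by_contra hcon
      push Not at hcon
      have h2 : (12 * c₁) ^ 2 ≤ (N ^ 2) ^ 2 := pow_le_pow_left₀ (by linarith) hcon 2
      have h6 : N ^ 2 * N ^ 2 < N ^ 2 * (144 * (N ^ 2 - 3)) := by
        apply mul_lt_mul_of_pos_left _ (by positivity)
        nlinarith
      nlinarith
  · intro ε hε
    refine eventually_atTop.mp ?_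
    filter_upwards [nef_stable ε hε, nef_stable (1 / 4) (by norm_num), eventually_ge_atTop 2]
      with n hn1 hn2 hn c₁ c₂ hc
    have hRR : RiemannRoch n (poly2 c₁ c₂) := hc.riemannRoch
    have hseg : ∀ j : ℕ, j ≤ n → 0 ≤ seg c₁ c₂ j :=
      fun j hj => by rw [← segre_eq]; exact hc.positive j hj
    rcases lt_or_ge (c₁ ^ 2) (4 * c₂) with hD | hD
    · have h1 := hn2 c₁ c₂ hseg hRR hD
      have hN1 : (1 : ℝ) ≤ n := by exact_mod_cast (by omega : 1 ≤ n)
      have h2 : (n : ℝ) ^ (4 : ℝ) ≤ (n : ℝ) ^ (2 * Real.exp (1 / 2) + 1 - 1 / 4) := by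
        apply Real.rpow_le_rpow_of_exponent_le hN1
        have := exp_half_bounds.1
        linarith
      have h3 : (n : ℝ) ^ 4 ≤ c₁ := by
        rw [show (4 : ℝ) = ((4 : ℕ) : ℝ) by norm_num, Real.rpow_natCast] at h2
        exact h2.trans h1
      have h4 : (n : ℤ) ^ 4 ≤ c₁ := by exact_mod_cast h3
      have hn2' : (2 : ℤ) ≤ n := by exact_mod_cast hn
      have h5 : 4 * ((n : ℤ) ^ 2 / 4) ≤ (n : ℤ) ^ 2 := by omega
      set N : ℤ := (n : ℤ) with hN
      have h6 : N ^ 2 * (4 * (N ^ 2 / 4)) ≤ N ^ 2 * N ^ 2 :=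
        mul_le_mul_of_nonneg_left h5 (by positivity)
      have h7 : 1 ≤ N ^ 4 := one_le_pow₀ (by linarith)
      have h8 : N ^ 4 ≤ c₁ ^ 2 := by nlinarith
      have h9 : 4 * (N ^ 2 * (N ^ 2 / 4)) ≤ c₁ ^ 2 := by nlinarith
      exact ⟨h9, by linarith, fun _ => hn1 c₁ c₂ hseg hRR hD⟩
    · obtain ⟨-, h1, -⟩ := unst n hn c₁ c₂ hc hD
      exact ⟨by linarith, h1, fun h => absurd h (not_lt.mpr hD)⟩

end Pool.Agent.Results.MP_b01859_ag.NefBundles
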